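import Pool.Agent.Lib.MP_943dad_ag.MB.Flat

set_option linter.all false

/-!
# MB-Br: the relation `Br A` on lists of points

It is generated by the braids of neighbouring points and the moves which do not change the handles `A`.
-/

namespace Pool.Agent.MB

open Pool.Agent.HMv
open Item

universe u

variable {G : Type u} [Group G]

/-- The relation on the lists of points. -/
inductive Br (A : List (G × G)) : List G → List G → Prop
  | refl (C : List G) : Br A C C
  | symm {C D : List G} : Br A C D → Br A D C
  | trans {C D E : List G} : Br A C D → Br A D E → Br A C E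
  | braid (C1 : List G) (x y : G) (C2 : List G) : Br A (C1 ++ x :: y :: C2) (C1 ++ (x * y * x⁻¹) :: x :: C2)
  | mv {C D : List G} : Mv (hds A ++ pts C) (hds A ++ pts D) → Br A C D

private theorem pts_mem {C : List G} {t : G} (ht : t ∈ C) : (pt t : Item G) ∈ pts C := by
  unfold pts
  exact List.mem_map.2 ⟨t, ht, rfl⟩

private theorem pts_mem' {C : List G} {p : Item G} (hp : p ∈ pts C) : ∃ t ∈ C, p = pt t := by
  unfold pts at hp
  obtain ⟨t, h1, h2⟩ := List.mem_map.1 hp
  exact ⟨t, h1, h2.symm⟩

private theorem pts_app (C D : List G) : pts (C ++ D) = pts C ++ pts D := by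
  unfold pts
  rw [List.map_append]

private theorem pt_mem_gen {A : List (G × G)} {C : List G} {t : G} (ht : t ∈ C) : t ∈ gen (hds A ++ pts C) :=
  ent_mem_gen (p := pt t) (List.mem_append_right _ (pts_mem ht)) rfl

private theorem gen_pts_le {A : List (G × G)} {C : List G} {K : Subgroup G} (hA : gen (hds A) ≤ K)
    (hC : ∀ t ∈ C, t ∈ K) : gen (hds A ++ pts C) ≤ K := by
  refine gen_le fun p hp z hz => ?_
  rcases List.mem_append.1 hp with hp | hp
  · exact hA (ent_mem_gen hp hz)
  · obtain ⟨t, ht, rfl⟩ := pts_mem' hp
    have : z = t := hz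
    rw [this]
    exact hC t ht

private theorem gen_hds_le {A : List (G × G)} {C : List G} : gen (hds A) ≤ gen (hds A ++ pts C) :=
  gen_mono fun p hp => List.mem_append_left _ hp

theorem Br.perm {A : List (G × G)} {C D : List G} (h : Br A C D) :
    (C.map ConjClasses.mk).Perm (D.map ConjClasses.mk) := by
  induction h with
  | refl C => exact List.Perm.refl _
  | symm _ ih => exact ih.symm
  | trans _ _ ih1 ih2 => exact ih1.trans ih2
  | braid C1 x y C2 =>
    rw [List.map_append, List.map_append, List.map_cons, List.map_cons, List.map_cons, List.map_cons, cls_conj]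
    exact List.Perm.append_left _ (List.Perm.swap _ _ _)
  | mv h =>
    have h1 := h.cls_eq
    rw [cls_hds_pts, cls_hds_pts] at h1
    rw [h1]

theorem Br.gen_eq {A : List (G × G)} {C D : List G} (h : Br A C D) :
    gen (hds A ++ pts C) = gen (hds A ++ pts D) := by
  induction h with
  | refl C => rfl
  | symm _ ih => exact ih.symm
  | trans _ _ ih1 ih2 => exact ih1.trans ih2
  | braid C1 x y C2 =>
    refine le_antisymm (gen_pts_le gen_hds_le fun t ht => ?_) (gen_pts_le gen_hds_le fun t ht => ?_)
    · have hx : x ∈ gen (hds A ++ pts (C1 ++ (x * y * x⁻¹) :: x :: C2)) := pt_mem_gen (by simp)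
      have hy : x * y * x⁻¹ ∈ gen (hds A ++ pts (C1 ++ (x * y * x⁻¹) :: x :: C2)) := pt_mem_gen (by simp)
      rcases List.mem_append.1 ht with h1 | h1
      · exact pt_mem_gen (List.mem_append_left _ h1)
      · rcases List.mem_cons.1 h1 with rfl | h1
        · exact hx
        · rcases List.mem_cons.1 h1 with rfl | h1
          · have e : x⁻¹ * (x * t * x⁻¹) * x = t := by group
            have h2 := mul_mem (mul_mem (inv_mem hx) hy) hx
            rw [e] at h2
            exact h2
          · exact pt_mem_gen (List.mem_append_right _ (List.mem_cons_of_mem _ (List.mem_cons_of_mem _ h1)))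
    · have hx : x ∈ gen (hds A ++ pts (C1 ++ x :: y :: C2)) := pt_mem_gen (by simp)
      have hy : y ∈ gen (hds A ++ pts (C1 ++ x :: y :: C2)) := pt_mem_gen (by simp)
      rcases List.mem_append.1 ht with h1 | h1
      · exact pt_mem_gen (List.mem_append_left _ h1)
      · rcases List.mem_cons.1 h1 with rfl | h1
        · exact mul_mem (mul_mem hx hy) (inv_mem hx)
        · rcases List.mem_cons.1 h1 with rfl | h1
          · exact hx
          · exact pt_mem_gen (List.mem_append_right _ (List.mem_cons_of_mem _ (List.mem_cons_of_mem _ h1)))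
  | mv h => exact h.gen_eq

/-- `R` moves to the right over `t`. -/
theorem pass_right (A : List (G × G)) (C1 R : List G) (t : G) (C2 : List G) :
    Br A (C1 ++ (R ++ t :: C2)) (C1 ++ (R.prod * t * R.prod⁻¹) :: (R ++ C2)) := by
  induction R generalizing C1 with
  | nil =>
    have e : ([] : List G).prod * t * ([] : List G).prod⁻¹ = t := by simp
    rw [e]
    exact Br.refl _
  | cons r R ih =>
    have h1 := ih (C1 ++ [r])
    have h2 := Br.braid (A := A) C1 r (R.prod * t * R.prod⁻¹) (R ++ C2)
    have e : r * (R.prod * t * R.prod⁻¹) * r⁻¹ = (r :: R).prod * t * (r :: R).prod⁻¹ := by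
      rw [List.prod_cons]
      group
    rw [e] at h2
    simp only [List.append_assoc, List.cons_append, List.nil_append] at h1 h2 ⊢
    exact h1.trans h2

/-- `t` moves to the right over `R`. -/
theorem conj_right (A : List (G × G)) (C1 : List G) (t : G) (R C2 : List G) :
    Br A (C1 ++ t :: (R ++ C2)) (C1 ++ (cjl t R ++ t :: C2)) := by
  induction R generalizing C1 with
  | nil => exact Br.refl _
  | cons r R ih =>
    have h1 := Br.braid (A := A) C1 t r (R ++ C2)
    have h2 := ih (C1 ++ [t * r * t⁻¹])
    have e : cjl t (r :: R) = (t * r * t⁻¹) :: cjl t R := rfl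
    rw [e]
    simp only [List.append_assoc, List.cons_append, List.nil_append] at h1 h2 ⊢
    exact h1.trans h2

/-- A flat block moves over `D`. -/
theorem flat_pass (A : List (G × G)) (C1 : List G) {R : List G} (hR : R.prod = 1) (D C2 : List G) :
    Br A (C1 ++ (R ++ (D ++ C2))) (C1 ++ (D ++ (R ++ C2))) := by
  induction D generalizing C1 with
  | nil => exact Br.refl _
  | cons d D ih =>
    have h1 := pass_right A C1 R d (D ++ C2)
    have e : R.prod * d * R.prod⁻¹ = d := by rw [hR]; group
    rw [e] at h1
    have h2 := ih (C1 ++ [d])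
    simp only [List.append_assoc, List.cons_append, List.nil_append] at h1 h2 ⊢
    exact h1.trans h2

private theorem cjl_mul (u v : G) (R : List G) : cjl (u * v) R = cjl u (cjl v R) := by
  unfold cjl
  rw [List.map_map]
  refine List.map_congr_left fun r _ => ?_
  simp only [Function.comp_apply]
  group

private theorem cjl_one (R : List G) : cjl (1 : G) R = R := by
  unfold cjl
  conv_rhs => rw [← List.map_id R]
  refine List.map_congr_left fun r _ => ?_
  simp

private theorem cjl_flat {R : List G} (hR : R.prod = 1) (u : G) : (cjl u R).prod = 1 := by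
  rw [cjl_prod, hR]
  group

/-- The elements by which the flat blocks can be conjugated. -/
private def fl (A : List (G × G)) (C : List G) : Subgroup G where
  carrier := {u | ∀ R : List G, R.prod = 1 → Br A (R ++ C) (cjl u R ++ C)}
  one_mem' := fun R _ => by
    rw [cjl_one]
    exact Br.refl _
  mul_mem' := fun {u v} hu hv R hR => by
    rw [cjl_mul]
    exact (hv R hR).trans (hu _ (cjl_flat hR v))
  inv_mem' := fun {u} hu R hR => by
    have h := hu (cjl u⁻¹ R) (cjl_flat hR _)
    rw [← cjl_mul, mul_inv_cancel, cjl_one] at h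
    exact h.symm

/-- A flat block can be conjugated by the elements of the group generated by the rest. -/
theorem flat_any (A : List (G × G)) {R : List G} (hR : R.prod = 1) (C : List G) {u : G}
    (hu : u ∈ gen (hds A ++ pts C)) : Br A (R ++ C) (cjl u R ++ C) := by
  have h : gen (hds A ++ pts C) ≤ fl A C := by
    refine gen_pts_le (fun z hz R hR => Br.mv ?_) fun t ht R hR => ?_
    · rw [pts_app, pts_app]
      exact flat_conj A hR hz (pts C)
    · obtain ⟨D1, D2, rfl⟩ := List.append_of_mem ht
      have h1 := flat_pass A [] hR D1 (t :: D2)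
      have h2 := flat_pass A D1 hR [t] D2
      have h3 := conj_right A D1 t R D2
      have h4 := flat_pass A [] (cjl_flat hR t) D1 (t :: D2)
      simp only [List.append_assoc, List.cons_append, List.nil_append] at h1 h2 h3 h4 ⊢
      exact ((h1.trans h2).trans h3).trans h4.symm
  exact h hu R hR

open Classical in
private theorem cjl_count (x : G) (R : List G) : (cjl x⁻¹ R).count x = R.count x := by
  unfold cjl
  have hinj : Function.Injective fun r : G => x⁻¹ * r * x⁻¹⁻¹ := by
    intro a b h
    have h1 : x⁻¹ * a * x⁻¹⁻¹ = x⁻¹ * b * x⁻¹⁻¹ := h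
    exact mul_left_cancel (mul_right_cancel h1)
  have h := List.count_map_of_injective R (fun r : G => x⁻¹ * r * x⁻¹⁻¹) hinj x
  have e : x⁻¹ * x * x⁻¹⁻¹ = x := by group
  rw [e] at h
  exact h

open Classical in
private theorem gather_aux (A : List (G × G)) (x : G) : ∀ (k : ℕ) (C0 C D : List G), k ≤ C.count x →
    ∃ C' : List G, Br A (C0 ++ (C ++ D)) (C0 ++ (List.replicate k x ++ (C' ++ D))) ∧ C'.count x + k = C.count x
  | 0, C0, C, D, _ => ⟨C, Br.refl _, by omega⟩
  | k + 1, C0, C, D, hk => by
    have hx : x ∈ C := List.count_pos_iff.1 (by omega)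
    obtain ⟨C1, C2, rfl⟩ := List.append_of_mem hx
    have hc : (C1 ++ x :: C2).count x = C1.count x + C2.count x + 1 := by
      rw [List.count_append, List.count_cons_self]
      omega
    have hc2 : (cjl x⁻¹ C1 ++ C2).count x = C1.count x + C2.count x := by
      rw [List.count_append, cjl_count]
    obtain ⟨C', h1, h2⟩ := gather_aux A x k (C0 ++ [x]) (cjl x⁻¹ C1 ++ C2) D (by omega)
    refine ⟨C', ?_, by omega⟩
    have h3 := (conj_right A C0 x (cjl x⁻¹ C1) (C2 ++ D)).symm
    rw [← cjl_mul, mul_inv_cancel, cjl_one] at h3
    rw [List.replicate_succ]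
    simp only [List.append_assoc, List.cons_append, List.nil_append] at h1 h3 ⊢
    exact h3.trans h1

open Classical in
/-- `k` copies of `x` are moved to the front. -/
theorem gather (A : List (G × G)) (x : G) : ∀ (k : ℕ) (C : List G) (D : List G), k ≤ C.count x →
    ∃ C' : List G, Br A (C ++ D) (List.replicate k x ++ (C' ++ D)) ∧ C'.count x + k = C.count x := by
  intro k C D hk
  obtain ⟨C', h1, h2⟩ := gather_aux A x k [] C D hk
  exact ⟨C', h1, h2⟩

end Pool.Agent.MB
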