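import Pool.Agent.Lib.MP_943dad_ag.BM.Hdl
import Pool.Agent.Lib.MP_943dad_ag.HMv.Moves

set_option linter.all false

/-!
# MB-Braid: the states `(A, C)` of handles and points, and braids of the points

`TL g n A C`: the homomorphism `F g n →* G` with the handle entries `A` and the point entries `C` is trivial on a handle
after a mapping class (`TrivH`).
-/

namespace Pool.Agent.MB

open Pool.Agent.HMv
open Pool.Agent.BM (TrivH)

variable {G : Type} [Group G]

/-- The state `(A, C)` becomes trivial on a handle. -/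
def TL (g n : ℕ) (A : List (G × G)) (C : List G) : Prop :=
  ∃ (hA : A.length = g) (hC : C.length = n), TrivH (hom A C hA hC)

theorem trivH_iff_TL {g n : ℕ} (φ : F g n →* G) :
    TrivH φ ↔ TL g n (List.ofFn fun i : Fin g => (φ (a n i), φ (b n i))) (List.ofFn fun j : Fin n => φ (c g j)) := by
  have h1 : hom (List.ofFn fun i : Fin g => (φ (a n i), φ (b n i))) (List.ofFn fun j : Fin n => φ (c g j))
      (by simp) (by simp) = φ := by
    apply hom_ext
    rw [mp_hom, mp_B0]
  constructor
  · intro h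
    refine ⟨by simp, by simp, ?_⟩
    rw [h1]
    exact h
  · rintro ⟨_, _, h⟩
    rw [h1] at h
    exact h

theorem TL.of_mv {g n : ℕ} {A A' : List (G × G)} {C C' : List G} (h : Mv (hds A ++ pts C) (hds A' ++ pts C'))
    (hT : TL g n A' C') : TL g n A C := by
  obtain ⟨hA', hC', t, ht1, ht2, i, hi, ht3, ht4⟩ := hT
  have hC : C.length = n := by
    have h1 := congrArg List.length h.cls_eq
    rw [cls_hds_pts, cls_hds_pts, List.length_map, List.length_map] at h1
    rw [h1, hC']
  have hA : A.length = g := by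
    have h1 := h.length_eq
    simp only [List.length_append, hds_length, pts_length] at h1
    omega
  have h1 : Mv (mp (hom A C hA hC) (B0 g n)) (hds A' ++ pts C') := by
    rw [mp_hom]
    exact h
  obtain ⟨B', m, e⟩ := Mv.lift _ h1
  have hlen := m.length_eq
  obtain ⟨B1, B2, rfl, e1, e2⟩ := mp_eq_append e
  obtain ⟨L, rfl, hL⟩ := mp_eq_hds e1
  obtain ⟨E, rfl, hE⟩ := mp_eq_pts e2
  have hc : E.length = n := by
    have h1 := congrArg List.length m.cls_eq
    rw [B0, cls_hds_pts, cls_hds_pts] at h1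
    simpa using h1.symm
  have hl : L.length = g := by
    rw [B0] at hlen
    simp only [List.length_append, hds_length, pts_length, List.length_ofFn] at hlen
    omega
  obtain ⟨α, hR, hcl, hα⟩ := sound hl hc m
  have h2 : (hom A C hA hC).comp α.toMonoidHom = hom A' C' hA' hC' := by
    apply hom_ext
    rw [← mp_mp, hα, e, mp_hom]
  have h3 : ∀ x, hom A C hA hC (α x) = hom A' C' hA' hC' x := fun x => by
    rw [← h2]
    rfl
  refine ⟨hA, hC, t.trans α, ?_, fun j => ?_, i, hi, ?_, ?_⟩
  · change α (t (R g n)) = R g n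
    rw [ht1, hR]
  · change IsConj (α (t (c g j))) (c g j)
    exact (α.toMonoidHom.map_isConj (ht2 j)).trans (hcl j)
  · change hom A C hA hC (α (t (a n i))) = 1
    rw [h3, ht3]
  · change hom A C hA hC (α (t (b n i))) = 1
    rw [h3, ht4]

/-- Automorphisms which fix the handles and permute the classes of the points. -/
private theorem trivH_comp {g n : ℕ} (β : MulAut (F g n)) (hR : β (R g n) = R g n)
    (hab : ∀ i : Fin g, β (a n i) = a n i ∧ β (b n i) = b n i)
    (hc : ∀ j : Fin n, ∃ k : Fin n, IsConj (β.symm (c g j)) (c g k) ∧ IsConj (β (c g k)) (c g j))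
    {φ ψ : F g n →* G} (hφ : ∀ x, ψ x = φ (β x)) (h : TrivH ψ) : TrivH φ := by
  obtain ⟨t, ht1, ht2, i, hi, ht3, ht4⟩ := h
  have hR' : β.symm (R g n) = R g n := by
    rw [MulEquiv.symm_apply_eq, hR]
  refine ⟨(β.symm.trans t).trans β, ?_, fun j => ?_, i, hi, ?_, ?_⟩
  · change β (t (β.symm (R g n))) = R g n
    rw [hR', ht1, hR]
  · obtain ⟨k, h1, h2⟩ := hc j
    change IsConj (β (t (β.symm (c g j)))) (c g j)
    have h3 : IsConj (t (β.symm (c g j))) (t (c g k)) := t.toMonoidHom.map_isConj h1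
    have h4 : IsConj (β (t (β.symm (c g j)))) (β (c g k)) := β.toMonoidHom.map_isConj (h3.trans (ht2 k))
    exact h4.trans h2
  · change φ (β (t (β.symm (a n i)))) = 1
    have h1 : β.symm (a n i) = a n i := by rw [MulEquiv.symm_apply_eq, (hab i).1]
    rw [h1, ← hφ, ht3]
  · change φ (β (t (β.symm (b n i)))) = 1
    have h1 : β.symm (b n i) = b n i := by rw [MulEquiv.symm_apply_eq, (hab i).2]
    rw [h1, ← hφ, ht4]

private theorem map_self {α : Type} {f : α → α} {l : List α} (h : l.map f = l) : ∀ x ∈ l, f x = x := by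
  intro x hx
  have h1 : l.map f = l.map id := by rw [h, List.map_id]
  exact (List.map_inj_left.1 h1) x hx

/-- The braid automorphism. -/
private theorem exists_braid {g n : ℕ} {P1 P2 : List (F g n)} {u v : F g n}
    (hP : (List.ofFn fun j : Fin n => c g j) = P1 ++ u :: v :: P2) :
    ∃ β : MulAut (F g n), β (R g n) = R g n ∧ (∀ i : Fin g, β (a n i) = a n i ∧ β (b n i) = b n i) ∧
      (∀ x ∈ P1, β x = x) ∧ β u = u * v * u⁻¹ ∧ β v = u ∧ (∀ x ∈ P2, β x = x) := by
  have hlen : P1.length + (P2.length + 1 + 1) = n := by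
    have h := congrArg List.length hP
    simp only [List.length_ofFn, List.length_append, List.length_cons] at h
    exact h.symm
  obtain ⟨S, hS⟩ : ∃ S : List (F g n × F g n), S = List.ofFn fun i : Fin g => (a n i, b n i) := ⟨_, rfl⟩
  have hSl : S.length = g := by rw [hS]; simp
  obtain ⟨β, hβ⟩ : ∃ β : F g n →* F g n, mp β (B0 g n) = hds S ++ pts (P1 ++ (u * v * u⁻¹) :: u :: P2) :=
    ⟨hom S _ hSl (by simp; omega), mp_hom _ _ _ _⟩
  obtain ⟨β', hβ'⟩ : ∃ β' : F g n →* F g n, mp β' (B0 g n) = hds S ++ pts (P1 ++ v :: (v⁻¹ * u * v) :: P2) :=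
    ⟨hom S _ hSl (by simp; omega), mp_hom _ _ _ _⟩
  have hB : B0 g n = hds S ++ pts (P1 ++ u :: v :: P2) := by rw [B0, hP, hS]
  -- the values
  have key : ∀ (γ : F g n →* F g n) (x y : F g n), mp γ (B0 g n) = hds S ++ pts (P1 ++ x :: y :: P2) →
      pmap γ S = S ∧ (∀ z ∈ P1, γ z = z) ∧ γ u = x ∧ γ v = y ∧ ∀ z ∈ P2, γ z = z := by
    intro γ x y h
    rw [hB, mp_append, mp_hds, mp_pts] at h
    obtain ⟨h1, h2⟩ := hds_pts_inj (by simp) h
    rw [List.map_append, List.map_cons, List.map_cons] at h2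
    obtain ⟨h3, h4⟩ := List.append_inj h2 (by simp)
    rw [List.cons.injEq, List.cons.injEq] at h4
    exact ⟨h1, map_self h3, h4.1, h4.2.1, map_self h4.2.2⟩
  obtain ⟨s1, p1, u1, v1, q1⟩ := key β _ _ hβ
  obtain ⟨s2, p2, u2, v2, q2⟩ := key β' _ _ hβ'
  have mapself : ∀ {γ : F g n →* F g n} {l : List (F g n)}, (∀ z ∈ l, γ z = z) → l.map γ = l := by
    intro γ l h
    conv_rhs => rw [← List.map_id l]
    exact List.map_inj_left.2 h
  have e1 : β.comp β' = MonoidHom.id _ := by
    apply hom_ext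
    rw [← mp_mp, hβ', mp_append, mp_hds, mp_pts, s1, List.map_append, List.map_cons, List.map_cons, mapself p1,
      mapself q1, mp_id, hB, map_mul, map_mul, map_inv, u1, v1]
    have e : u⁻¹ * (u * v * u⁻¹) * u = v := by group
    rw [e]
  have e2 : β'.comp β = MonoidHom.id _ := by
    apply hom_ext
    rw [← mp_mp, hβ, mp_append, mp_hds, mp_pts, s2, List.map_append, List.map_cons, List.map_cons, mapself p2,
      mapself q2, mp_id, hB, map_mul, map_mul, map_inv, u2, v2]
    have e : v * (v⁻¹ * u * v) * v⁻¹ = u := by group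
    rw [e]
  refine ⟨MonoidHom.toMulEquiv β β' e2 e1, ?_, fun i => ?_, p1, u1, v1, q1⟩
  · change β (R g n) = R g n
    rw [← cp_B0, ← cp_mp, hβ, hB]
    have e : ∀ L : List (Item (F g n)), ∀ x y : List (F g n), x.prod = y.prod → cp (L ++ pts x) = cp (L ++ pts y) := by
      intro L x y h
      have h1 : ∀ x : List (F g n), cp (pts x) = x.prod := by
        intro x
        induction x with
        | nil => rfl
        | cons z x ih =>
          rw [pts_cons, List.prod_cons, ← ih]
          rfl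
      have h2 : ∀ L M : List (Item (F g n)), cp (L ++ M) = cp L * cp M := by
        intro L M
        simp [cp]
      rw [h2, h2, h1, h1, h]
    apply e
    rw [List.prod_append, List.prod_append, List.prod_cons, List.prod_cons, List.prod_cons, List.prod_cons]
    group
  · have h3 : ∀ p ∈ S, (β p.1, β p.2) = p := map_self s1
    have h4 : (a n i, b n i) ∈ S := by
      rw [hS, List.mem_ofFn]
      exact ⟨i, rfl⟩
    have h5 := h3 _ h4
    rw [Prod.mk.injEq] at h5
    exact h5

theorem TL.braid {g n : ℕ} (A : List (G × G)) (C1 : List G) (x y : G) (C2 : List G) :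
    TL g n A (C1 ++ x :: y :: C2) ↔ TL g n A (C1 ++ (x * y * x⁻¹) :: x :: C2) := by
  have hlen : (C1 ++ x :: y :: C2).length = (C1 ++ (x * y * x⁻¹) :: x :: C2).length := by simp
  by_cases hA : A.length = g
  swap
  · constructor
    · rintro ⟨h, _⟩
      exact absurd h hA
    · rintro ⟨h, _⟩
      exact absurd h hA
  by_cases hC : (C1 ++ x :: y :: C2).length = n
  swap
  · constructor
    · rintro ⟨_, h, _⟩
      exact absurd h hC
    · rintro ⟨_, h, _⟩
      exact absurd (hlen.trans h) hC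
  have hC' : (C1 ++ (x * y * x⁻¹) :: x :: C2).length = n := hlen.symm.trans hC
  obtain ⟨φ, hφ⟩ : ∃ φ, φ = hom A (C1 ++ x :: y :: C2) hA hC := ⟨_, rfl⟩
  obtain ⟨ψ, hψ⟩ : ∃ ψ, ψ = hom A (C1 ++ (x * y * x⁻¹) :: x :: C2) hA hC' := ⟨_, rfl⟩
  have hmp : mp φ (B0 g n) = hds A ++ pts (C1 ++ x :: y :: C2) := by rw [hφ, mp_hom]
  have hmp2 := hmp
  rw [B0, mp_append, mp_hds, mp_pts] at hmp2
  obtain ⟨h1, h2⟩ := hds_pts_inj (by simp [hA]) hmp2
  obtain ⟨P1, P', hP, hP1, hP'⟩ := List.map_eq_append_iff.1 h2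
  obtain ⟨u, P'', rfl, hu, hP''⟩ := List.map_eq_cons_iff.1 hP'
  obtain ⟨v, P2, rfl, hv, hP2⟩ := List.map_eq_cons_iff.1 hP''
  obtain ⟨β, b1, b2, b3, b4, b5, b6⟩ := exists_braid hP
  -- the composition
  have hψβ : ∀ z, ψ z = φ (β z) := by
    have h3 : ψ = φ.comp β.toMonoidHom := by
      apply hom_ext
      rw [hψ, mp_hom, mp_B0]
      congr 1
      · congr 1
        rw [← h1, pmap, List.map_ofFn]
        congr 1
        funext i
        change (φ (a n i), φ (b n i)) = (φ (β (a n i)), φ (β (b n i)))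
        rw [(b2 i).1, (b2 i).2]
      · congr 1
        have h4 : (List.ofFn fun j : Fin n => (φ.comp β.toMonoidHom) (c g j)) =
            (List.ofFn fun j : Fin n => c g j).map (φ.comp β.toMonoidHom) := by
          rw [List.map_ofFn]
          rfl
        rw [h4, hP, List.map_append, List.map_cons, List.map_cons]
        have h5 : P1.map (φ.comp β.toMonoidHom) = C1 := by
          rw [← hP1]
          refine List.map_congr_left fun z hz => ?_
          change φ (β z) = φ z
          rw [b3 z hz]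
        have h6 : P2.map (φ.comp β.toMonoidHom) = C2 := by
          rw [← hP2]
          refine List.map_congr_left fun z hz => ?_
          change φ (β z) = φ z
          rw [b6 z hz]
        have h7 : (φ.comp β.toMonoidHom) u = x * y * x⁻¹ := by
          change φ (β u) = _
          rw [b4, map_mul, map_mul, map_inv, hu, hv]
        have h8 : (φ.comp β.toMonoidHom) v = x := by
          change φ (β v) = _
          rw [b5, hu]
        rw [h5, h6, h7, h8]
    intro z
    rw [h3]
    rfl
  -- the classes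
  have hmem : ∀ j : Fin n, c g j ∈ P1 ++ u :: v :: P2 := by
    intro j
    rw [← hP, List.mem_ofFn]
    exact ⟨j, rfl⟩
  have hidx : ∀ z ∈ P1 ++ u :: v :: P2, ∃ k : Fin n, c g k = z := by
    intro z hz
    rw [← hP, List.mem_ofFn] at hz
    exact hz
  obtain ⟨ku, hku⟩ := hidx u (by simp)
  obtain ⟨kv, hkv⟩ := hidx v (by simp)
  have cj : IsConj (u * v * u⁻¹) v := (isConj_iff.2 ⟨u, rfl⟩ : IsConj v (u * v * u⁻¹)).symm
  have bu : β.symm u = v := by rw [MulEquiv.symm_apply_eq, b5]
  have bv : IsConj (β.symm v) u := by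
    have h3 : IsConj (β.symm (u * v * u⁻¹)) (β.symm v) := β.symm.toMonoidHom.map_isConj cj
    have h4 : β.symm (u * v * u⁻¹) = u := by rw [MulEquiv.symm_apply_eq, b4]
    rw [h4] at h3
    exact h3.symm
  have hfix : ∀ z, β z = z → β.symm z = z := fun z hz => by rw [MulEquiv.symm_apply_eq, hz]
  have hcl : ∀ j : Fin n, ∃ k : Fin n, IsConj (β.symm (c g j)) (c g k) ∧ IsConj (β (c g k)) (c g j) := by
    intro j
    have hj := hmem j
    rw [List.mem_append, List.mem_cons, List.mem_cons] at hj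
    rcases hj with h3 | h3 | h3 | h3
    · exact ⟨j, by rw [hfix _ (b3 _ h3)], by rw [b3 _ h3]⟩
    · refine ⟨kv, ?_, ?_⟩
      · rw [h3, bu, hkv]
      · rw [h3, hkv, b5]
    · refine ⟨ku, ?_, ?_⟩
      · rw [h3, hku]
        exact bv
      · rw [h3, hku, b4]
        exact cj
    · exact ⟨j, by rw [hfix _ (b6 _ h3)], by rw [b6 _ h3]⟩
  have hcl' : ∀ j : Fin n, ∃ k : Fin n, IsConj (β.symm.symm (c g j)) (c g k) ∧ IsConj (β.symm (c g k)) (c g j) := by
    intro j
    have hj := hmem j
    rw [List.mem_append, List.mem_cons, List.mem_cons] at hj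
    rcases hj with h3 | h3 | h3 | h3
    · refine ⟨j, ?_, by rw [hfix _ (b3 _ h3)]⟩
      change IsConj (β (c g j)) _
      rw [b3 _ h3]
    · refine ⟨kv, ?_, ?_⟩
      · change IsConj (β (c g j)) _
        rw [h3, b4, hkv]
        exact cj
      · rw [h3, hkv]
        exact bv
    · refine ⟨ku, ?_, ?_⟩
      · change IsConj (β (c g j)) _
        rw [h3, b5, hku]
      · rw [h3, hku, bu]
    · refine ⟨j, ?_, by rw [hfix _ (b6 _ h3)]⟩
      change IsConj (β (c g j)) _
      rw [b6 _ h3]
  constructor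
  · rintro ⟨_, _, h⟩
    refine ⟨hA, hC', ?_⟩
    rw [← hψ]
    rw [← hφ] at h
    refine trivH_comp β.symm ?_ (fun i => ⟨hfix _ (b2 i).1, hfix _ (b2 i).2⟩) hcl' (φ := ψ) (ψ := φ) (fun z => ?_) h
    · exact hfix _ b1
    · rw [hψβ, MulEquiv.apply_symm_apply]
  · rintro ⟨_, _, h⟩
    refine ⟨hA, hC, ?_⟩
    rw [← hφ]
    rw [← hψ] at h
    exact trivH_comp β b1 b2 hcl hψβ h

end Pool.Agent.MB
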