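import Pool.Agent.Lib.MP_943dad_ag.MB.Frq
import Pool.Agent.Lib.MP_943dad_ag.SO.GC

set_option linter.all false

/-!
# MB-Cnt: many branch points make a class frequent; groups with a small cost
-/

namespace Pool.Agent.MB

open Pool.Agent.HMv

/-- If there are at least `|H| ^ 4` branch points, then a nontrivial class is frequent. -/
theorem pigeon2 {H : Type} [Group H] [Finite H] {g n : ℕ} (φ : F g n →* H) (hφ : ∀ j : Fin n, φ (c g j) ≠ 1)
    (hn : Nat.card H ^ 4 ≤ n) : freq φ ≠ ⊥ := by
  classical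
  intro hb
  haveI := Fintype.ofFinite H
  have hq : 0 < Nat.card H := Nat.card_pos
  have hcard : (Finset.univ.erase (1 : H)).card = Nat.card H - 1 := by
    rw [Finset.card_erase_of_mem (Finset.mem_univ _), Finset.card_univ, Nat.card_eq_fintype_card]
  have hlt : (Finset.univ.erase (1 : H)).card * (Nat.card H ^ 3 + Nat.card H ^ 2) <
      (Finset.univ : Finset (Fin n)).card := by
    rw [hcard, Finset.card_univ, Fintype.card_fin]
    refine lt_of_lt_of_le ?_ hn
    obtain ⟨q, hq'⟩ : ∃ q, Nat.card H = q + 1 := ⟨Nat.card H - 1, by omega⟩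
    rw [hq', Nat.add_sub_cancel]
    nlinarith [sq_nonneg q, sq_nonneg (q + 1)]
  obtain ⟨y, hy, h1⟩ := Finset.exists_lt_card_fiber_of_mul_lt_card_of_maps_to
    (f := fun j : Fin n => φ (c g j)) (fun j _ => Finset.mem_erase.2 ⟨hφ j, Finset.mem_univ _⟩) hlt
  have h2 : y ∈ freq φ := by
    refine Subgroup.subset_closure ?_
    change Nat.card H ^ 3 + Nat.card H ^ 2 + 1 ≤ Nat.card {j : Fin n // IsConj y (φ (c g j))}
    have h3 : Nat.card {j : Fin n // IsConj y (φ (c g j))} =
        (Finset.univ.filter fun j : Fin n => IsConj y (φ (c g j))).card := by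
      rw [Nat.card_eq_fintype_card, Fintype.card_subtype]
    rw [h3]
    refine le_trans h1 (Finset.card_le_card ?_)
    intro j hj
    rw [Finset.mem_filter] at hj ⊢
    refine ⟨Finset.mem_univ _, ?_⟩
    rw [hj.2]
  rw [hb, Subgroup.mem_bot] at h2
  exact (Finset.mem_erase.1 hy).1 h2

/-- The cost of a finite group is less than its order. -/
theorem cost_card (H : Type) [Group H] [Finite H] : Cost H (Nat.card H - 1) := by
  have h1 := Cost.index H (⊥ : Subgroup H) 0 (by rw [Subgroup.index_bot]; exact Nat.card_pos.ne')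
    (Cost.trivial _ inferInstance)
  rwa [Subgroup.index_bot, add_zero] at h1

theorem adm_card {H : Type} [Group H] [Finite H] {g : ℕ} (hg : Nat.card H ≤ g) : Adm g H := by
  have hq : 0 < Nat.card H := Nat.card_pos
  refine ⟨Nat.card H, Nat.card H - 1, fun i => (Finite.equivFin H).symm i, ?_, gcost_of_cost _ (cost_card H), by omega⟩
  have h1 : Set.range (fun i => (Finite.equivFin H).symm i) = Set.univ :=
    (Finite.equivFin H).symm.surjective.range_eq
  rw [h1, Subgroup.closure_univ]

theorem adm_cyclic {Q : Type} [Group Q] (hQ : IsCyclic Q) {g : ℕ} (hg : 2 ≤ g) : Adm g Q := by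
  obtain ⟨x, hx⟩ := hQ.exists_generator
  have h1 : IsCyclic (Q ⧸ (⊥ : Subgroup Q)) :=
    isCyclic_of_surjective (QuotientGroup.mk' (⊥ : Subgroup Q)) (QuotientGroup.mk'_surjective _)
  have h2 := Cost.cyclic Q (⊥ : Subgroup Q) 0 h1 (Cost.trivial _ inferInstance)
  refine ⟨1, 1 + 0, fun _ => x, ?_, gcost_of_cost 1 h2, by omega⟩
  rw [eq_top_iff]
  intro y _
  have h3 : Set.range (fun _ : Fin 1 => x) = {x} := Set.range_const
  rw [h3, ← Subgroup.zpowers_eq_closure]
  exact hx y

theorem adm_mono {Q : Type} [Group Q] {g g' : ℕ} (h : Adm g Q) (hg : g ≤ g') : Adm g' Q := by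
  obtain ⟨d, m, s, hs, hm, hlt⟩ := h
  exact ⟨d, m, s, hs, hm, by omega⟩

end Pool.Agent.MB
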