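import Pool.Agent.Lib.MP_943dad_ag.SO.Pt

set_option linter.all false

/-!
# MB-Last: a last handle with entries in `B` is killed by the points
-/

namespace Pool.Agent.MB

open Pool.Agent.HMv

open Item

universe u

variable {G : Type u} [Group G]

/-- `B` is a normal subgroup, generated by the entries of `P`, and the points contain `P` repeated `|B|` times: a last
handle with entries in `B` can be made trivial. -/
theorem pt_crit2 (B : Subgroup G) [B.Normal] [Finite B] {P : List G}
    (hP : Subgroup.closure {x | x ∈ P} = B) (A : List (G × G)) {p q : G} (hp : p ∈ B) (hq : q ∈ B) {C : List G}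
    (hC : (List.replicate (Nat.card B) P).flatten.Sublist C) :
    ∃ C1 : List G, Mv (hds (A ++ [(p, q)]) ++ pts C) (hds (A ++ [(1, 1)]) ++ pts C1) := by
  have hcard : 0 < Nat.card B := Nat.card_pos
  have e0 : Nat.card B = (Nat.card B - 1) + 1 := by omega
  rw [e0, List.replicate_succ', List.flatten_append, List.append_sublist_iff] at hC
  obtain ⟨C1, C2, rfl, hC1, hC2⟩ := hC
  obtain ⟨Q, hQ, hQp⟩ := exists_sublist hP (B.inv_mem hp)
  obtain ⟨P', h2⟩ := travel (hQ.trans hC1) p q (pts C2)
  rw [hQp, mul_inv_cancel] at h2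
  -- back to the left
  have h3 := passL (pts P') 1 (p⁻¹⁻¹ * q * p⁻¹) (pts C2)
  rw [mul_one, mul_inv_cancel] at h3
  obtain ⟨s, hs⟩ : ∃ s, s = cp (pts P') * (p⁻¹⁻¹ * q * p⁻¹) * (cp (pts P'))⁻¹ := ⟨_, rfl⟩
  rw [← hs] at h3
  have hsB : s ∈ B := by
    rw [hs]
    refine Subgroup.Normal.conj_mem inferInstance _ ?_ _
    exact B.mul_mem (B.mul_mem (B.inv_mem (B.inv_mem hp)) hq) (B.inv_mem hp)
  obtain ⟨X, hX⟩ : ∃ X, X = pts P' ++ pts C2 := ⟨_, rfl⟩
  rw [← hX] at h3
  have h4 := flat_end (Commute.one_left s) X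
  have h5 : s ∈ gen (hds A ++ X) := by
    have h6 : B ≤ gen (hds A ++ X) := by
      rw [← hP, Subgroup.closure_le]
      intro y hy
      have h7 : y ∈ C2 := by
        have : y ∈ (List.flatten [P]) := by simpa using hy
        exact hC2.subset (by simpa using hy)
      refine ent_mem_gen (p := pt y) ?_ rfl
      rw [hX]
      refine List.mem_append_right _ (List.mem_append_right _ ?_)
      exact List.mem_map_of_mem h7
    exact h6 hsB
  have h6 := kill_end h5
  have h7 := (flat_end (Commute.one_left (1 : G)) X).symm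
  refine ⟨P' ++ C2, ?_⟩
  have e1 : hds (A ++ [(p, q)]) ++ pts (C1 ++ C2) = hds A ++ (hd p q :: (pts C1 ++ pts C2)) := by
    simp [hds, pts]
  have e2 : hds (A ++ [((1 : G), (1 : G))]) ++ pts (P' ++ C2) = hds A ++ (hd 1 1 :: X) := by
    rw [hX]
    simp [hds, pts]
  rw [e1, e2]
  refine ((h2.trans (h3.trans h4)).app_left _).trans ?_
  have h9 : Mv (hds A ++ (X ++ [hd 1 s])) (hds A ++ (X ++ [hd 1 1])) := by
    have := h6
    rw [List.append_assoc, List.append_assoc] at this
    exact this
  exact h9.trans (h7.app_left _)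

theorem pt_last (B : Subgroup G) [B.Normal] [Finite B] {P : List G} (hP : Subgroup.closure {x | x ∈ P} = B)
    (A : List (G × G)) {p q : G} (hp : p ∈ B) (hq : q ∈ B) {C : List G}
    (hC : (List.replicate (Nat.card B) P).flatten.Sublist C) :
    ∃ (A1 : List (G × G)) (C1 : List G), Mv (hds (A ++ [(p, q)]) ++ pts C)
      (hds (A1 ++ List.replicate 1 (1, 1)) ++ pts C1) := by
  obtain ⟨C1, h⟩ := pt_crit2 B hP A hp hq hC
  exact ⟨A, C1, h⟩

end Pool.Agent.MB
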