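import Pool.Agent.Lib.MP_943dad_ag.MB.Pat
import Pool.Agent.Lib.MP_943dad_ag.MB.Braid
import Pool.Agent.Lib.MP_943dad_ag.MB.Last
import Pool.Agent.Lib.MP_943dad_ag.SO.GC

set_option linter.all false

/-!
# MB-Core: covers with many points in a few classes are trivial on a handle
-/

namespace Pool.Agent.MB

open Pool.Agent.HMv
open Pool.Agent.BM (TrivH)
open Item

theorem Br.tl {G : Type} [Group G] {A : List (G × G)} {C D : List G} (h : Br A C D) (g n : ℕ) :
    TL g n A C ↔ TL g n A D := by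
  induction h with
  | refl C => exact Iff.rfl
  | symm _ ih => exact ih.symm
  | trans _ _ ih1 ih2 => exact ih1.trans ih2
  | braid C1 x y C2 => exact TL.braid A C1 x y C2
  | mv h => exact ⟨fun hT => TL.of_mv h.symm hT, fun hT => TL.of_mv h hT⟩

theorem gen_B0_top {G : Type} [Group G] {g n : ℕ} (φ : F g n →* G) (hφ : Function.Surjective φ) :
    gen (hds (List.ofFn fun i : Fin g => (φ (a n i), φ (b n i))) ++ pts (List.ofFn fun j : Fin n => φ (c g j))) = ⊤ := by
  rw [← mp_B0]
  apply gen_mp_top hφ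
  rw [eq_top_iff]
  intro x _
  have h2 : x ∈ Subgroup.closure (Set.range (FreeGroup.of (α := (Fin g × Bool) ⊕ Fin n))) := by
    rw [FreeGroup.closure_range_of]
    trivial
  refine (Subgroup.closure_le (K := gen (B0 g n))).2 ?_ h2
  rintro _ ⟨i, rfl⟩
  rcases i with ⟨i, e⟩ | j
  · have hmem : (hd (a n i) (b n i) : Item (F g n)) ∈ B0 g n := by
      unfold B0 hds
      apply List.mem_append_left
      rw [List.mem_map]
      exact ⟨(a n i, b n i), by rw [List.mem_ofFn]; exact ⟨i, rfl⟩, rfl⟩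
    cases e
    · exact ent_mem_gen hmem (Or.inl rfl)
    · exact ent_mem_gen hmem (Or.inr rfl)
  · have hmem : (pt (c g j) : Item (F g n)) ∈ B0 g n := by
      unfold B0 pts
      apply List.mem_append_right
      rw [List.mem_map]
      exact ⟨c g j, by rw [List.mem_ofFn]; exact ⟨j, rfl⟩, rfl⟩
    exact ent_mem_gen hmem rfl

/-- A state with a trivial last handle. -/
theorem TL.of_one {G : Type} [Group G] {g n : ℕ} {A : List (G × G)} {C : List G} (hA : (A ++ [((1 : G), (1 : G))]).length = g)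
    (hC : C.length = n) : TL g n (A ++ [(1, 1)]) C := by
  subst hA hC
  refine ⟨rfl, rfl, 1, rfl, fun j => IsConj.refl _, ⟨A.length, by simp⟩, by simp, ?_, ?_⟩
  · change hom _ _ rfl rfl (a _ _) = 1
    simp [hom, a]
  · change hom _ _ rfl rfl (b _ _) = 1
    simp [hom, b]

theorem trivH_comp {G : Type} [Group G] {g n : ℕ} (ψ : F g n →* G) (t : MulAut (F g n)) (h1 : t (R g n) = R g n)
    (h2 : ∀ j : Fin n, IsConj (t (c g j)) (c g j)) (h : TrivH (ψ.comp (MulEquiv.toMonoidHom t))) : TrivH ψ := by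
  obtain ⟨s, k1, k2, i, hi, k3, k4⟩ := h
  refine ⟨t * s, ?_, fun j => ?_, i, hi, k3, k4⟩
  · rw [MulAut.mul_apply, k1, h1]
  · rw [MulAut.mul_apply]
    exact ((t.toMonoidHom.map_isConj (k2 j))).trans (h2 j)

open Classical in
theorem count_ofFn {G : Type} [Group G] {n : ℕ} (w : G) (f : Fin n → G) :
    ((List.ofFn f).filter fun y => decide (IsConj w y)).length = Nat.card {j : Fin n // IsConj w (f j)} := by
  rw [Nat.card_eq_fintype_card, Fintype.card_subtype, List.ofFn_eq_map, List.filter_map, List.length_map]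
  rfl

/-- The core. -/
theorem core {G : Type} [Group G] [Finite G] {g n : ℕ} (ψ : F (g + 1) n →* G)
    (hψ : Function.Surjective ψ) (B : Subgroup G) [B.Normal] {P : List G} (hP : Subgroup.closure {x | x ∈ P} = B)
    (hlen : P.length ≤ Nat.card G)
    (hN : ∀ w ∈ P, Nat.card G ^ 3 + Nat.card G ^ 2 + 1 ≤ Nat.card {j : Fin n // IsConj w (ψ (c (g + 1) j))})
    (hB : TrivH ((QuotientGroup.mk' B).comp ψ)) : TrivH ψ := by
  classical
  obtain ⟨t, h1, h2, i, hi, h3, h4⟩ := hB
  obtain rfl : i = Fin.last g := Fin.ext (by simp; omega)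
  have hp : ψ (t (a n (Fin.last g))) ∈ B := (QuotientGroup.eq_one_iff _).1 h3
  have hq : ψ (t (b n (Fin.last g))) ∈ B := (QuotientGroup.eq_one_iff _).1 h4
  refine trivH_comp ψ t h1 h2 ?_
  obtain ⟨χ, hχ⟩ : ∃ χ, χ = ψ.comp (MulEquiv.toMonoidHom t) := ⟨_, rfl⟩
  have hχa : ∀ x, χ x = ψ (t x) := fun x => by rw [hχ]; rfl
  rw [← hχ, trivH_iff_TL]
  have hχs : Function.Surjective χ := by
    intro y
    obtain ⟨x, rfl⟩ := hψ y
    exact ⟨t.symm x, by rw [hχa, MulEquiv.apply_symm_apply]⟩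
  have hgen := gen_B0_top χ hχs
  obtain ⟨A, hA⟩ : ∃ A, A = List.ofFn fun i : Fin g => (χ (a n i.castSucc), χ (b n i.castSucc)) := ⟨_, rfl⟩
  have hAl : (List.ofFn fun i : Fin (g + 1) => (χ (a n i), χ (b n i))) =
      A ++ [(ψ (t (a n (Fin.last g))), ψ (t (b n (Fin.last g))))] := by
    rw [List.ofFn_succ_last, hA, hχa, hχa]
  obtain ⟨C, hC⟩ : ∃ C, C = List.ofFn fun j : Fin n => χ (c (g + 1) j) := ⟨_, rfl⟩
  rw [← hC, hAl] at hgen ⊢
  have hcount : ∀ w ∈ P, Nat.card G ^ 3 + Nat.card G ^ 2 + 1 ≤ (C.filter fun y => decide (IsConj w y)).length := by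
    intro w hw
    rw [hC, count_ofFn]
    refine (hN w hw).trans (le_of_eq ?_)
    refine Nat.card_congr (Equiv.subtypeEquivRight fun j => ?_)
    have h5 : IsConj (χ (c (g + 1) j)) (ψ (c (g + 1) j)) := by
      rw [hχa]
      exact ψ.map_isConj (h2 j)
    exact ⟨fun h => h.trans h5.symm, fun h => h.trans h5⟩
  obtain ⟨W, hW⟩ : ∃ W, W = (List.replicate (Nat.card B) P).flatten := ⟨_, rfl⟩
  have hWl : W.length ≤ Nat.card G * Nat.card G := by
    rw [hW, List.length_flatten, List.map_replicate, List.sum_replicate, smul_eq_mul]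
    exact Nat.mul_le_mul (Subgroup.card_le_card_group B) hlen
  have hWP : ∀ w ∈ W, w ∈ P := by
    intro w hw
    rw [hW, List.mem_flatten] at hw
    obtain ⟨l, hl, hwl⟩ := hw
    rwa [List.eq_of_mem_replicate hl] at hwl
  obtain ⟨Rest, Done, hBr, hsub, -⟩ := pattern (A ++ [(ψ (t (a n (Fin.last g))), ψ (t (b n (Fin.last g))))]) W C []
    (by rw [List.append_nil]; exact hgen) (fun w hw => by
      have h5 := hcount w (hWP w hw)
      have h6 : Nat.card G * W.length ≤ Nat.card G * (Nat.card G * Nat.card G) := Nat.mul_le_mul_left _ hWl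
      have h7 : Nat.card G * (Nat.card G * Nat.card G) = Nat.card G ^ 3 := by ring
      omega)
  rw [List.append_nil] at hBr hsub
  rw [hBr.tl]
  obtain ⟨C1, hmv⟩ := pt_crit2 B hP A hp hq (C := Rest ++ Done) (by
    rw [← hW]
    exact hsub.trans (List.sublist_append_right _ _))
  refine TL.of_mv hmv (TL.of_one ?_ ?_)
  · rw [hA]
    simp
  · have h5 := congrArg List.length hmv.cls_eq
    rw [cls_hds_pts, cls_hds_pts] at h5
    have h6 := hBr.perm.length_eq
    rw [List.length_map, List.length_map] at h5 h6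
    rw [← h5, ← h6, hC, List.length_ofFn]

end Pool.Agent.MB
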