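import Pool.Agent.Lib.MP_943dad_ag.SO.Pt

set_option linter.all false

/-!
# MB-Flat: a block of points with product `1` can be conjugated by the entries of the handles
-/

namespace Pool.Agent.MB

open Pool.Agent.HMv
open Item

universe u

variable {G : Type u} [Group G]

/-- The conjugates of the elements of a list. -/
def cjl (u : G) (R : List G) : List G := R.map fun r => u * r * u⁻¹

theorem cjl_prod (u : G) (R : List G) : (cjl u R).prod = u * R.prod * u⁻¹ := by
  induction R with
  | nil => simp [cjl]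
  | cons r R ih =>
    have : cjl u (r :: R) = (u * r * u⁻¹) :: cjl u R := rfl
    rw [this, List.prod_cons, List.prod_cons, ih]
    group

theorem exchQ_list (p q : G) (R : List G) (L : List (Item G)) :
    Mv (hd p q :: (pts R ++ L)) (pts R ++ hd (R.prod⁻¹ * p * R.prod) (R.prod⁻¹ * q * R.prod) :: L) := by
  induction R generalizing p q with
  | nil => simpa using Mv.refl _
  | cons r R ih =>
    have h1 := Mv.exchQ p q r (pts R ++ L)
    have h2 := (ih (r⁻¹ * p * r) (r⁻¹ * q * r)).cons (pt r)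
    have h3 := h1.trans h2
    have e : ∀ x : G, R.prod⁻¹ * (r⁻¹ * x * r) * R.prod = (r :: R).prod⁻¹ * x * (r :: R).prod := by
      intro x
      rw [List.prod_cons]
      group
    rw [e, e] at h3
    exact h3

theorem exchP_list (p q : G) (R : List G) (L : List (Item G)) :
    Mv (hd p q :: (pts R ++ L)) (pts (cjl (p * q * p⁻¹ * q⁻¹) R) ++ hd p q :: L) := by
  induction R with
  | nil => exact Mv.refl _
  | cons r R ih => exact (Mv.exchP p q r (pts R ++ L)).trans (ih.cons _)

theorem absorb_one (p q r : G) (L : List (Item G)) :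
    Mv (hd p q :: pt r :: L) (pt (p * q * p⁻¹ * r * (p * q * p⁻¹)⁻¹) :: hd (p * r) (r⁻¹ * q * r) :: L) := by
  have h1 := Mv.dp p q r 1 L
  have h2 := Mv.twist (p * (q⁻¹ * r) ^ (1 : ℤ)) ((q⁻¹ * r) ^ (-1 : ℤ) * q * (q⁻¹ * r) ^ (1 : ℤ)) 1
    (pt ((q⁻¹ * r) ^ (-1 : ℤ) * r * (q⁻¹ * r) ^ (1 : ℤ)) :: L)
  have h3 := h1.trans h2
  have e1 : p * (q⁻¹ * r) ^ (1 : ℤ) * ((q⁻¹ * r) ^ (-1 : ℤ) * q * (q⁻¹ * r) ^ (1 : ℤ)) ^ (1 : ℤ) = p * r := by
    simp only [zpow_one, zpow_neg]
    group
  have e2 : (q⁻¹ * r) ^ (-1 : ℤ) * q * (q⁻¹ * r) ^ (1 : ℤ) = r⁻¹ * q * r := by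
    simp only [zpow_one, zpow_neg]
    group
  have e3 : (q⁻¹ * r) ^ (-1 : ℤ) * r * (q⁻¹ * r) ^ (1 : ℤ) = r⁻¹ * (q * r * q⁻¹) * r := by
    simp only [zpow_one, zpow_neg]
    group
  rw [e1, e2, e3] at h3
  have h4 := Mv.exchP (p * r) (r⁻¹ * q * r) (r⁻¹ * (q * r * q⁻¹) * r) L
  have e4 : (p * r * (r⁻¹ * q * r) * (p * r)⁻¹ * (r⁻¹ * q * r)⁻¹) * (r⁻¹ * (q * r * q⁻¹) * r) *
      (p * r * (r⁻¹ * q * r) * (p * r)⁻¹ * (r⁻¹ * q * r)⁻¹)⁻¹ = p * q * p⁻¹ * r * (p * q * p⁻¹)⁻¹ := by
    group
  rw [e4] at h4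
  exact h3.trans h4

theorem absorb_list (p q : G) (R : List G) (L : List (Item G)) :
    Mv (hd p q :: (pts R ++ L)) (pts (cjl (p * q * p⁻¹) R) ++ hd (p * R.prod) (R.prod⁻¹ * q * R.prod) :: L) := by
  induction R generalizing p q with
  | nil => simpa [cjl] using Mv.refl _
  | cons r R ih =>
    have h1 := absorb_one p q r (pts R ++ L)
    have h2 := (ih (p * r) (r⁻¹ * q * r)).cons (pt (p * q * p⁻¹ * r * (p * q * p⁻¹)⁻¹))
    have h3 := h1.trans h2
    have e1 : p * r * (r⁻¹ * q * r) * (p * r)⁻¹ = p * q * p⁻¹ := by group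
    have e2 : p * r * R.prod = p * (r :: R).prod := by rw [List.prod_cons, mul_assoc]
    have e3 : R.prod⁻¹ * (r⁻¹ * q * r) * R.prod = (r :: R).prod⁻¹ * q * (r :: R).prod := by
      rw [List.prod_cons]
      group
    rw [e1, e2, e3] at h3
    exact h3

private theorem cjl_cjl (u v : G) (R : List G) : cjl u (cjl v R) = cjl (u * v) R := by
  unfold cjl
  rw [List.map_map]
  refine List.map_congr_left fun r _ => ?_
  simp only [Function.comp_apply]
  group

private theorem cjl_one (R : List G) : cjl 1 R = R := by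
  unfold cjl
  simp

private theorem flat_cjl {R : List G} (hR : R.prod = 1) (u : G) : (cjl u R).prod = 1 := by
  rw [cjl_prod, hR]
  group

/-- The elements by which the flat blocks to the right of a handle can be conjugated. -/
private def stb (p q : G) : Subgroup G where
  carrier := {u | ∀ (R : List G) (L : List (Item G)), R.prod = 1 →
    Mv (hd p q :: (pts R ++ L)) (hd p q :: (pts (cjl u R) ++ L))}
  mul_mem' := by
    intro u v hu hv R L hR
    have h1 := hv R L hR
    have h2 := hu (cjl v R) L (flat_cjl hR v)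
    rw [cjl_cjl] at h2
    exact h1.trans h2
  one_mem' := by
    intro R L hR
    rw [cjl_one]
    exact Mv.refl _
  inv_mem' := by
    intro u hu R L hR
    have h1 := hu (cjl u⁻¹ R) L (flat_cjl hR _)
    rw [cjl_cjl, mul_inv_cancel, cjl_one] at h1
    exact h1.symm

private theorem stb_mem {p q u : G} (h : ∀ (R : List G) (L : List (Item G)), R.prod = 1 →
    Mv (hd p q :: (pts R ++ L)) (pts (cjl u R) ++ hd p q :: L)) : u ∈ stb p q := by
  intro R L hR
  have h1 := exchQ_list p q (cjl u R) L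
  rw [flat_cjl hR u] at h1
  have e : ∀ x : G, (1 : G)⁻¹ * x * 1 = x := fun x => by group
  rw [e, e] at h1
  exact (h R L hR).trans h1.symm

private theorem stb_a (p q : G) : p * q * p⁻¹ ∈ stb p q := by
  refine stb_mem fun R L hR => ?_
  have h1 := absorb_list p q R L
  rw [hR] at h1
  have e : (1 : G)⁻¹ * q * 1 = q := by group
  rw [mul_one, e] at h1
  exact h1

private theorem stb_b (p q : G) : p * q * p⁻¹ * q⁻¹ ∈ stb p q :=
  stb_mem fun R L _ => exchP_list p q R L

private theorem stb_q (p q : G) : q ∈ stb p q := by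
  have h := mul_mem (inv_mem (stb_b p q)) (stb_a p q)
  have e : (p * q * p⁻¹ * q⁻¹)⁻¹ * (p * q * p⁻¹) = q := by group
  rwa [e] at h

private theorem stb_p (p q : G) : p ∈ stb p q := by
  have h1 := stb_q (p * q * p⁻¹) p⁻¹
  have h2 : p⁻¹ ∈ stb p q := by
    intro R L hR
    exact ((Mv.rot p q (pts R ++ L)).trans (h1 R L hR)).trans (Mv.rot p q (pts (cjl p⁻¹ R) ++ L)).symm
  have h3 := inv_mem h2
  rwa [inv_inv] at h3

theorem flat_handle (p q : G) {R : List G} (hR : R.prod = 1) {u : G} (hu : u ∈ Subgroup.closure {p, q})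
    (L : List (Item G)) : Mv (hd p q :: (pts R ++ L)) (hd p q :: (pts (cjl u R) ++ L)) := by
  have h1 : Subgroup.closure {p, q} ≤ stb p q := by
    rw [Subgroup.closure_le]
    rintro x (rfl | hx)
    · exact stb_p _ _
    · have hx' : x = q := hx
      rw [hx']
      exact stb_q _ _
  exact h1 hu R L hR

theorem flat_over (A : List (G × G)) {R : List G} (hR : R.prod = 1) (L : List (Item G)) :
    Mv (hds A ++ (pts R ++ L)) (pts R ++ (hds A ++ L)) := by
  induction A with
  | nil => exact Mv.refl _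
  | cons a A ih =>
    have h1 := ih.cons (hd a.1 a.2)
    have h2 := exchQ_list a.1 a.2 R (hds A ++ L)
    rw [hR] at h2
    have e : ∀ x : G, (1 : G)⁻¹ * x * 1 = x := fun x => by group
    rw [e, e] at h2
    exact h1.trans h2

theorem flat_conj (A : List (G × G)) {R : List G} (hR : R.prod = 1) {u : G} (hu : u ∈ gen (hds A))
    (L : List (Item G)) : Mv (hds A ++ (pts R ++ L)) (hds A ++ (pts (cjl u R) ++ L)) := by
  have hS : ∃ S : Subgroup G, ∀ v, v ∈ S ↔ ∀ (R : List G) (L : List (Item G)), R.prod = 1 →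
      Mv (hds A ++ (pts R ++ L)) (hds A ++ (pts (cjl v R) ++ L)) := by
    refine ⟨{ carrier := {u | ∀ (R : List G) (L : List (Item G)), R.prod = 1 →
                Mv (hds A ++ (pts R ++ L)) (hds A ++ (pts (cjl u R) ++ L))}
              mul_mem' := ?_
              one_mem' := ?_
              inv_mem' := ?_ }, fun v => Iff.rfl⟩
    · intro u v hu hv R L hR
      have h1 := hv R L hR
      have h2 := hu (cjl v R) L (flat_cjl hR v)
      rw [cjl_cjl] at h2
      exact h1.trans h2
    · intro R L hR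
      rw [cjl_one]
      exact Mv.refl _
    · intro u hu R L hR
      have h1 := hu (cjl u⁻¹ R) L (flat_cjl hR _)
      rw [cjl_cjl, mul_inv_cancel, cjl_one] at h1
      exact h1.symm
  obtain ⟨S, hS⟩ := hS
  have hle : gen (hds A) ≤ S := by
    apply gen_le
    intro it hit z hz
    unfold hds at hit
    rw [List.mem_map] at hit
    obtain ⟨w, hw, rfl⟩ := hit
    have hz' : z ∈ Subgroup.closure {w.1, w.2} := by
      rcases hz with rfl | hz
      · exact Subgroup.subset_closure (Or.inl rfl)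
      · have h3 : z = w.2 := hz
        rw [h3]
        exact Subgroup.subset_closure (Or.inr rfl)
    rw [hS]
    intro R L hR
    obtain ⟨A1, A2, rfl⟩ := List.append_of_mem hw
    have h1 : ∀ R : List G, R.prod = 1 → Mv (hds (A1 ++ w :: A2) ++ (pts R ++ L))
        (hds A1 ++ hd w.1 w.2 :: (pts R ++ (hds A2 ++ L))) := by
      intro R hR
      have h2 := (flat_over A2 hR L).cons (hd w.1 w.2)
      have h3 := h2.app_left (hds A1)
      have e : hds (A1 ++ w :: A2) ++ (pts R ++ L) = hds A1 ++ hd w.1 w.2 :: (hds A2 ++ (pts R ++ L)) := by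
        simp [hds_append]
      rw [e]
      exact h3
    have h2 := (flat_handle w.1 w.2 hR hz' (hds A2 ++ L)).app_left (hds A1)
    exact ((h1 R hR).trans h2).trans (h1 _ (flat_cjl hR z)).symm
  exact (hS u).1 (hle hu) R L hR

end Pool.Agent.MB
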