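import Pool.Agent.Lib.MP_943dad_ag.HMv.Defs

set_option linter.all false

/-!
# MB-Frq: the frequent classes
-/

namespace Pool.Agent.MB

open Pool.Agent.HMv

/-- The subgroup generated by the conjugacy classes which contain at least `|H|^3 + |H|^2 + 1` of the elements `φ c_j`. -/
def freq {H : Type} [Group H] {g n : ℕ} (φ : F g n →* H) : Subgroup H :=
  Subgroup.closure {x | Nat.card H ^ 3 + Nat.card H ^ 2 + 1 ≤ Nat.card {j : Fin n // IsConj x (φ (c g j))}}

instance freq_normal {H : Type} [Group H] {g n : ℕ} (φ : F g n →* H) : (freq φ).Normal := by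
  refine ⟨fun x hx y => ?_⟩
  have h1 : (freq φ).map (MulAut.conj y).toMonoidHom ≤ freq φ := by
    unfold freq
    rw [MonoidHom.map_closure, Subgroup.closure_le]
    rintro _ ⟨z, hz, rfl⟩
    refine Subgroup.subset_closure ?_
    have h2 : IsConj z (y * z * y⁻¹) := isConj_iff.2 ⟨y, rfl⟩
    have h3 : ∀ w, IsConj ((MulAut.conj y).toMonoidHom z) w ↔ IsConj z w := fun w =>
      ⟨fun h => h2.trans h, fun h => h2.symm.trans h⟩
    change _ ≤ Nat.card {j : Fin n // IsConj ((MulAut.conj y).toMonoidHom z) (φ (c g j))}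
    rw [Nat.card_congr (Equiv.subtypeEquivRight fun j => h3 (φ (c g j)))]
    exact hz
  exact h1 ⟨x, hx, rfl⟩

theorem card_conj {G : Type} [Group G] {g n : ℕ} (ψ : F g n →* G) (t : MulAut (F g n))
    (ht : ∀ j : Fin n, IsConj (t (c g j)) (c g j)) (w : G) :
    Nat.card {j : Fin n // IsConj w (ψ (t (c g j)))} = Nat.card {j : Fin n // IsConj w (ψ (c g j))} := by
  refine Nat.card_congr (Equiv.subtypeEquivRight fun j => ?_)
  have h := ψ.map_isConj (ht j)
  exact ⟨fun k => k.trans h, fun k => k.trans h.symm⟩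

open Classical in
theorem length_filter {G : Type} [Group G] {n : ℕ} (f : Fin n → G) (w : G) :
    ((List.ofFn f).filter fun y => decide (IsConj w y)).length = Nat.card {j : Fin n // IsConj w (f j)} := by
  rw [Nat.card_eq_fintype_card, Fintype.card_subtype, List.ofFn_eq_map, List.filter_map, List.length_map]
  rfl

theorem exists_list {G : Type} [Group G] [Finite G] {g n : ℕ} (ψ : F g n →* G) :
    ∃ P : List G, P.length ≤ Nat.card G ∧ Subgroup.closure {x | x ∈ P} = freq ψ ∧
      ∀ w ∈ P, Nat.card G ^ 3 + Nat.card G ^ 2 + 1 ≤ Nat.card {j : Fin n // IsConj w (ψ (c g j))} := by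
  classical
  haveI := Fintype.ofFinite G
  refine ⟨(Finset.univ.filter fun w : G => Nat.card G ^ 3 + Nat.card G ^ 2 + 1 ≤
    Nat.card {j : Fin n // IsConj w (ψ (c g j))}).toList, ?_, ?_, fun w hw => ?_⟩
  · rw [Finset.length_toList, Nat.card_eq_fintype_card (α := G)]
    exact Finset.card_le_univ _
  · unfold freq
    congr 1
    ext x
    simp
  · rw [Finset.mem_toList, Finset.mem_filter] at hw
    exact hw.2

end Pool.Agent.MB
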