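import Pool.Agent.Lib.MP_943dad_ag.MB.Core
import Pool.Agent.Lib.MP_943dad_ag.MB.Frq

set_option linter.all false

/-!
# MB-Good: good covers are trivial on a handle
-/

namespace Pool.Agent.MB

open Pool.Agent.HMv
open Pool.Agent.BM (TrivH)

/-- Let `B` be the subgroup generated by the frequent classes. `Q / B` has a small cost, or the cover modulo `B` is
trivial on a handle. -/
def Good {Q : Type} [Group Q] {g n : ℕ} (ψ : F g n →* Q) : Prop :=
  Adm g (Q ⧸ freq ψ) ∨ TrivH ((QuotientGroup.mk' (freq ψ)).comp ψ)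

theorem trivH_of_adm {Q : Type} [Group Q] [Finite Q] {g n : ℕ} (ψ : F (g + 1) n →* Q) (hψ : Function.Surjective ψ)
    (h : Adm (g + 1) Q) : TrivH ψ := by
  obtain ⟨d, m, s, hs, hm, hlt⟩ := h
  obtain ⟨α, hα, hc, hh⟩ := handles_of_killsGen (killsGen_of_cost hm inferInstance ⟨s, hs⟩) ψ hψ
  have h1 := hh (Fin.last g) (by simp; omega)
  exact ⟨α, hα, hc, Fin.last g, by simp, h1.1, h1.2⟩

theorem trivH_of_good {Q : Type} [Group Q] [Finite Q] {g n : ℕ} (ψ : F (g + 1) n →* Q) (hψ : Function.Surjective ψ)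
    (h : Good ψ) : TrivH ψ := by
  obtain ⟨P, h1, h2, h3⟩ := exists_list ψ
  refine core ψ hψ (freq ψ) h2 h1 h3 ?_
  rcases h with h | h
  · exact trivH_of_adm _ ((QuotientGroup.mk'_surjective _).comp hψ) h
  · exact h

end Pool.Agent.MB
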