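import Pool.Agent.Lib.MP_943dad_ag.MB.Good
import Pool.Agent.Lib.MP_943dad_ag.BM.St3

set_option linter.all false

/-!
# MB-Iter: the hypothesis for all normal subgroups which contain the kernel of an irreducible representation
-/

namespace Pool.Agent.MB

open Pool.Agent.HMv Pool.Agent.BigMon
open Pool.Agent.BM (TrivH IrrK)

variable {H : Type} [Group H]

theorem TrivH.comp_right {G G' : Type} [Group G] [Group G'] {g n : ℕ} {ψ : F g n →* G} (π : G →* G')
    (h : TrivH ψ) : TrivH (π.comp ψ) := by
  obtain ⟨t, h1, h2, i, hi, h3, h4⟩ := h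
  exact ⟨t, h1, h2, i, hi, by rw [MonoidHom.comp_apply, h3, map_one], by rw [MonoidHom.comp_apply, h4, map_one]⟩

/-- The iteration. -/
theorem trivH_all [Finite H] {g n : ℕ} (φ : F (g + 1) n →* H) (hφ : Function.Surjective φ) (N : Subgroup H)
    (h : ∀ (M : Subgroup H) [M.Normal], N ≤ M → Adm (g + 1) (H ⧸ M) ∨ TrivH ((QuotientGroup.mk' M).comp φ) ∨
      freq ((QuotientGroup.mk' M).comp φ) ≠ ⊥) :
    ∀ (k : ℕ) (M : Subgroup H) [M.Normal], Nat.card (H ⧸ M) = k → N ≤ M → TrivH ((QuotientGroup.mk' M).comp φ) := by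
  intro k
  induction k using Nat.strong_induction_on with
  | _ k ih =>
    intro M _ hk hNM
    have hψ : Function.Surjective ((QuotientGroup.mk' M).comp φ) := (QuotientGroup.mk'_surjective M).comp hφ
    rcases h M hNM with h1 | h1 | h1
    · exact trivH_of_adm _ hψ h1
    · exact h1
    obtain ⟨B, hB⟩ : ∃ B, B = (freq ((QuotientGroup.mk' M).comp φ)).comap (QuotientGroup.mk' M) := ⟨_, rfl⟩
    haveI hBn : B.Normal := by
      rw [hB]
      exact Subgroup.Normal.comap inferInstance _
    have hMB : M ≤ B := by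
      intro x hx
      rw [hB, Subgroup.mem_comap]
      have : (QuotientGroup.mk' M) x = 1 := (QuotientGroup.eq_one_iff x).2 hx
      rw [this]
      exact Subgroup.one_mem _
    have hne : B ≠ M := by
      intro h2
      apply h1
      rw [eq_bot_iff]
      intro x hx
      obtain ⟨y, rfl⟩ := QuotientGroup.mk'_surjective M x
      have h3 : y ∈ B := by
        rw [hB]
        exact hx
      rw [h2] at h3
      exact (QuotientGroup.eq_one_iff y).2 h3
    have hlt : Nat.card (H ⧸ B) < k := by
      rw [← hk]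
      have h2 : M.index = M.relIndex B * B.index := (Subgroup.relIndex_mul_index hMB).symm
      have h3 : B.index ≠ 0 := Subgroup.index_ne_zero_of_finite
      have h4 : M.relIndex B ≠ 1 := by
        rw [Ne, Subgroup.relIndex_eq_one]
        exact fun h5 => hne (le_antisymm h5 hMB)
      have h5 : M.index ≠ 0 := Subgroup.index_ne_zero_of_finite
      have h6 : M.relIndex B ≠ 0 := fun h6 => h5 (by rw [h2, h6, zero_mul])
      change B.index < M.index
      rw [h2]
      have h7 : 2 ≤ M.relIndex B := by omega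
      nlinarith [Nat.pos_of_ne_zero h3]
    have h2 := ih _ hlt B rfl (hNM.trans hMB)
    refine trivH_of_good _ hψ (Or.inr ?_)
    have h3 := TrivH.comp_right (QuotientGroup.lift B ((QuotientGroup.mk' (freq ((QuotientGroup.mk' M).comp φ))).comp
      (QuotientGroup.mk' M)) (by
        intro x hx
        rw [hB] at hx
        rw [MonoidHom.mem_ker, MonoidHom.comp_apply]
        exact (QuotientGroup.eq_one_iff _).2 hx)) h2
    exact h3

/-- **Big monodromy.** -/
theorem big_of_iter [Fintype H] {g n : ℕ} (hg3 : 3 ≤ g) (φ : F g n →* H) (hφ : Function.Surjective φ)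
    (hR : φ (R g n) = 1)
    (h : ∀ (N M : Subgroup H) [N.Normal] [M.Normal], IrrK N → N ≤ M → Adm g (H ⧸ M) ∨
      TrivH ((QuotientGroup.mk' M).comp φ) ∨ freq ((QuotientGroup.mk' M).comp φ) ≠ ⊥) :
    ∃ ω : Form φ, IsCup φ ω ∧ Sympl ω ∧ BigM φ ω := by
  obtain ⟨g, rfl⟩ : ∃ g', g = g' + 1 := ⟨g - 1, by omega⟩
  exact Pool.Agent.BigMon.main3 hg3 φ hφ hR fun N _ k =>
    Or.inr (trivH_all φ hφ N (fun M _ hM => h N M k hM) _ N rfl le_rfl)

end Pool.Agent.MB
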