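import Pool.Agent.Lib.MP_943dad_ag.MB.Br

set_option linter.all false

/-!
# MB-Pat: patterns
-/

namespace Pool.Agent.MB

open Pool.Agent.HMv
open Item

variable {G : Type} [Group G]

open Classical in
theorem pigeon [Finite G] (w : G) (C : List G)
    (h : Nat.card G ^ 2 < (C.filter fun y => decide (IsConj w y)).length) :
    ∃ x : G, IsConj w x ∧ Nat.card G < C.count x := by
  by_contra hcon
  push Not at hcon
  obtain ⟨D, hD⟩ : ∃ D, D = C.filter fun y => decide (IsConj w y) := ⟨_, rfl⟩
  rw [← hD] at h
  have h1 : ∀ x ∈ D.toFinset, D.count x ≤ Nat.card G := by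
    intro x hx
    rw [List.mem_toFinset, hD, List.mem_filter, decide_eq_true_eq] at hx
    refine le_trans ?_ (hcon x hx.2)
    rw [hD]
    exact List.filter_sublist.count_le x
  have h2 : ∑ x ∈ D.toFinset, D.count x = D.length := List.sum_toFinset_count_eq_length D
  have h3 := Finset.sum_le_card_nsmul D.toFinset (fun x => D.count x) (Nat.card G) h1
  have h4 : D.toFinset.card ≤ Nat.card G := by
    haveI : Fintype G := Fintype.ofFinite G
    rw [Nat.card_eq_fintype_card]
    exact Finset.card_le_univ _
  rw [smul_eq_mul, h2] at h3
  have h5 : D.toFinset.card * Nat.card G ≤ Nat.card G * Nat.card G := Nat.mul_le_mul_right _ h4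
  rw [pow_two] at h
  omega

open Classical in
/-- The number of the elements of a list in a conjugacy class. -/
private theorem filter_eq (v : G) (C : List G) :
    (C.filter fun y => decide (IsConj v y)).length = (C.map ConjClasses.mk).count (ConjClasses.mk v) := by
  induction C with
  | nil => rfl
  | cons y C ih =>
    rw [List.map_cons, List.count_cons, ← ih, List.filter_cons]
    by_cases hy : IsConj v y
    · rw [if_pos (decide_eq_true hy), List.length_cons, if_pos]
      rw [beq_iff_eq]
      exact ConjClasses.mk_eq_mk_iff_isConj.2 hy.symm
    · rw [if_neg (by simpa using hy), if_neg, add_zero]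
      rw [beq_iff_eq]
      exact fun h => hy (ConjClasses.mk_eq_mk_iff_isConj.1 h).symm

open Classical in
theorem step [Finite G] (A : List (G × G)) (Rest Done : List G) (hgen : gen (hds A ++ pts (Rest ++ Done)) = ⊤) (w : G)
    (h : Nat.card G ^ 2 < (Rest.filter fun y => decide (IsConj w y)).length) :
    ∃ Rest' : List G, Br A (Rest ++ Done) (Rest' ++ (List.replicate (Nat.card G) w ++ Done)) ∧
      ∀ v : G, (Rest.filter fun y => decide (IsConj v y)).length ≤
        (Rest'.filter fun y => decide (IsConj v y)).length + Nat.card G := by
  obtain ⟨x, hx, hcx⟩ := pigeon w Rest h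
  obtain ⟨C', hBr, hC'⟩ := gather A x (Nat.card G) Rest Done hcx.le
  refine ⟨C', ?_, fun v => ?_⟩
  · -- the block can be conjugated
    have hxC : x ∈ C' := by
      apply List.count_pos_iff.1
      omega
    have hg : gen (hds A ++ pts (C' ++ Done)) = ⊤ := by
      rw [eq_top_iff, ← hgen, Br.gen_eq hBr]
      refine gen_le fun p hp z hz => ?_
      rw [List.mem_append] at hp
      rcases hp with hp | hp
      · exact ent_mem_gen (List.mem_append_left _ hp) hz
      · unfold pts at hp
        rw [List.map_append, List.mem_append] at hp
        rcases hp with hp | hp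
        · rw [List.mem_map] at hp
          obtain ⟨y, hy, rfl⟩ := hp
          rw [List.eq_of_mem_replicate hy] at hz
          refine ent_mem_gen (p := pt x) (List.mem_append_right _ ?_) hz
          unfold pts
          exact List.mem_map_of_mem (List.mem_append_left _ hxC)
        · exact ent_mem_gen (List.mem_append_right _ hp) hz
    obtain ⟨u, hu⟩ := isConj_iff.1 hx.symm
    have h1 : (List.replicate (Nat.card G) x).prod = 1 := by
      rw [List.prod_replicate, pow_card_eq_one']
    have h2 : (List.replicate (Nat.card G) w).prod = 1 := by
      rw [List.prod_replicate, pow_card_eq_one']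
    have h3 := flat_any A h1 (C' ++ Done) (u := u) (by rw [hg]; trivial)
    have h4 : cjl u (List.replicate (Nat.card G) x) = List.replicate (Nat.card G) w := by
      unfold cjl
      rw [List.map_replicate, hu]
    rw [h4] at h3
    have h5 := flat_pass A [] h2 C' Done
    rw [List.nil_append, List.nil_append] at h5
    exact hBr.trans (h3.trans h5)
  · have h1 := (Br.perm hBr).count_eq (ConjClasses.mk v)
    rw [List.map_append, List.count_append, List.map_append, List.map_append, List.count_append, List.count_append,
      ← filter_eq v Rest, ← filter_eq v Done, ← filter_eq v C'] at h1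
    have h2 : ((List.replicate (Nat.card G) x).map ConjClasses.mk).count (ConjClasses.mk v) ≤ Nat.card G := by
      refine List.count_le_length.trans ?_
      rw [List.length_map, List.length_replicate]
    omega

open Classical in
theorem pattern [Finite G] (A : List (G × G)) : ∀ (W Rest Done : List G), gen (hds A ++ pts (Rest ++ Done)) = ⊤ →
    (∀ w ∈ W, Nat.card G ^ 2 + Nat.card G * W.length < (Rest.filter fun y => decide (IsConj w y)).length) →
    ∃ Rest' Done' : List G, Br A (Rest ++ Done) (Rest' ++ Done') ∧ (W ++ Done).Sublist Done' ∧
      ∀ v : G, (Rest.filter fun y => decide (IsConj v y)).length ≤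
        (Rest'.filter fun y => decide (IsConj v y)).length + Nat.card G * W.length := by
  intro W
  induction W with
  | nil =>
    intro Rest Done _ _
    exact ⟨Rest, Done, Br.refl _, by simp, fun v => by simp⟩
  | cons w W ih =>
    intro Rest Done hgen hW
    have hlen : Nat.card G * (w :: W).length = Nat.card G * W.length + Nat.card G := by
      rw [List.length_cons, Nat.mul_add, mul_one]
    rw [hlen] at hW
    obtain ⟨Rest1, Done1, h1, h2, h3⟩ := ih Rest Done hgen fun v hv => by
      have := hW v (List.mem_cons_of_mem _ hv)
      omega
    have h4 : Nat.card G ^ 2 < (Rest1.filter fun y => decide (IsConj w y)).length := by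
      have h5 := hW w List.mem_cons_self
      have h6 := h3 w
      omega
    obtain ⟨Rest2, h5, h6⟩ := step A Rest1 Done1 (by rw [← Br.gen_eq h1]; exact hgen) w h4
    refine ⟨Rest2, List.replicate (Nat.card G) w ++ Done1, h1.trans h5, ?_, fun v => ?_⟩
    · have hpos : 0 < Nat.card G := Nat.card_pos
      obtain ⟨k, hk⟩ : ∃ k, Nat.card G = k + 1 := ⟨Nat.card G - 1, by omega⟩
      rw [hk, List.replicate_succ, List.cons_append, List.cons_append]
      exact (h2.trans (List.sublist_append_right _ _)).cons_cons w
    · have h7 := h3 v
      have h8 := h6 v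
      rw [hlen]
      omega

end Pool.Agent.MB
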