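import Pool.Agent.Lib.MP_943dad_ag.MB.Good
import Pool.Agent.Lib.MP_943dad_ag.MB.Cnt
import Pool.Agent.Lib.MP_943dad_ag.AL.Main

set_option linter.all false

/-!
# Finitely many types
-/

namespace Pool.Agent.MB

open Pool.Agent.HMv Pool.Agent.BigMon
open Pool.Agent.BM (TrivH)
open Pool.Agent.AL (Big)

theorem big_of_trivH {H : Type} [Group H] [Fintype H] {g n : ℕ} (hg : 3 ≤ g) (φ : F g n →* H)
    (hφ : Function.Surjective φ) (hR : φ (R g n) = 1) (h : TrivH φ) : Big φ := by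
  obtain ⟨g, rfl⟩ : ∃ g', g = g' + 1 := ⟨g - 1, by omega⟩
  obtain ⟨t, h1, h2, i, hi, h3, h4⟩ := h
  obtain rfl : i = Fin.last g := Fin.ext (by simp; omega)
  exact ⟨hφ, main hg φ hφ hR t h1 h2 ⟨h3, h4⟩⟩

theorem big_of_good {H : Type} [Group H] [Fintype H] {g n : ℕ} (hg : 3 ≤ g) (φ : F g n →* H)
    (hφ : Function.Surjective φ) (hR : φ (R g n) = 1) (h : Good φ) : Big φ := by
  obtain ⟨g, rfl⟩ : ∃ g', g = g' + 1 := ⟨g - 1, by omega⟩
  exact big_of_trivH hg φ hφ hR (trivH_of_good φ hφ h)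

/-- All proper quotients of `H` have a small cost: then all covers with `g ≥ |H|` or `n ≥ |H|^4` have big monodromy. -/
theorem big_types {H : Type} [Group H] [Fintype H] (hH : ∀ (B : Subgroup H) [B.Normal], B ≠ ⊥ → Adm 3 (H ⧸ B))
    {g n : ℕ} (hg : 3 ≤ g) (hgn : Nat.card H ≤ g ∨ Nat.card H ^ 4 ≤ n) (φ : F g n →* H)
    (hφ : Function.Surjective φ) (hR : φ (R g n) = 1) (hc : ∀ j : Fin n, φ (c g j) ≠ 1) : Big φ := by
  rcases hgn with h | h
  · obtain ⟨g, rfl⟩ : ∃ g', g = g' + 1 := ⟨g - 1, by omega⟩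
    exact big_of_trivH hg φ hφ hR (trivH_of_adm φ hφ (adm_card h))
  · exact big_of_good hg φ hφ hR (Or.inl (adm_mono (hH _ (pigeon2 φ hc h)) hg))

end Pool.Agent.MB
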